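import Pool.Agent.H75.GG.Targets

/-!
MP_0f8dca_lc, module PM1: the recursion for the parameters.
-/

set_option autoImplicit false

namespace Pool.Agent.H10.GG

open Finset Filter Pool.Agent.H6.NB Pool.Agent.H70.OQ Pool.Agent.H75.GS Pool.Agent.H75.GG

theorem qi (w d : ℕ) : 2 / qw w ^ (d + 2) = 2 * (128 * (w : ℝ)) ^ (d + 2) := by
  unfold qw
  rw [one_div, inv_pow, div_inv_eq_mul]

theorem gb {d n w : ℕ} (h : 6 * (128 * w) ^ (d + 2) ≤ 2 ^ n) :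
    2 / qw w ^ (d + 2) ≤ 2 ^ n / 3 := by
  rw [qi]
  have h1 : ((6 * (128 * w) ^ (d + 2) : ℕ) : ℝ) ≤ ((2 ^ n : ℕ) : ℝ) := by exact_mod_cast h
  push_cast at h1
  linarith

theorem g0 (w d : ℕ) : 0 ≤ 2 / qw w ^ (d + 2) := by
  rw [qi]
  positivity

theorem p2 {a b c : ℕ} (h : a + b ≤ c) : (2 : ℝ) ^ a / 2 ^ c ≤ 1 / 2 ^ b := by
  rw [div_le_div_iff₀ (by positivity) (by positivity), one_mul, ← pow_add]
  exact pow_le_pow_right₀ (by norm_num) h

theorem st1 {d n t κ w E : ℕ} (hG : 6 * (128 * w) ^ (d + 2) ≤ 2 ^ n) (hk : 1 ≤ κ)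
    (h : 2 * n + 2 + (t * κ + 2) * (d + 2) + E ≤ w) :
    2 / qw w ^ (d + 2) * (((2 : ℝ) ^ n + 1) * (2 ^ t + 2 ^ (t * κ) + 1) ^ (d + 2) * 2 / 2 ^ w) ≤
      1 / 3 * (1 / 2 ^ E) := by
  have h1 : (2 : ℝ) ^ t + 2 ^ (t * κ) + 1 ≤ 2 ^ (t * κ + 2) := by
    have h2 : (2 : ℝ) ^ t ≤ 2 ^ (t * κ) :=
      pow_le_pow_right₀ (by norm_num) (Nat.le_mul_of_pos_right _ hk)
    have h3 : (1 : ℝ) ≤ 2 ^ (t * κ) := one_le_pow₀ (by norm_num)
    rw [pow_add]
    linarith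
  have h2 : (2 : ℝ) ^ n + 1 ≤ 2 ^ (n + 1) := by
    have h3 : (1 : ℝ) ≤ 2 ^ n := one_le_pow₀ (by norm_num)
    rw [pow_add]
    linarith
  have h3 := gb hG
  have h4 := g0 w d
  calc _ ≤ (2 : ℝ) ^ n / 3 * (2 ^ (n + 1) * (2 ^ (t * κ + 2)) ^ (d + 2) * 2 / 2 ^ w) := by gcongr
    _ = 1 / 3 * (2 ^ (2 * n + 2 + (t * κ + 2) * (d + 2)) / 2 ^ w) := by
        rw [← pow_mul, pow_add _ (2 * n + 2)]
        ring
    _ ≤ _ := mul_le_mul_of_nonneg_left (p2 h) (by norm_num)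

theorem st2 {d n w r E : ℕ} (hG : 6 * (128 * w) ^ (d + 2) ≤ 2 ^ n) (h : n + E ≤ 2 * r) :
    2 / qw w ^ (d + 2) * (1 / 4 ^ r) ≤ 1 / 3 * (1 / 2 ^ E) := by
  have h3 := gb hG
  have h4 : (4 : ℝ) ^ r = 2 ^ (2 * r) := by rw [pow_mul]; norm_num
  calc _ ≤ (2 : ℝ) ^ n / 3 * (1 / 4 ^ r) := by gcongr
    _ = 1 / 3 * (2 ^ n / 2 ^ (2 * r)) := by rw [h4]; ring
    _ ≤ _ := mul_le_mul_of_nonneg_left (p2 h) (by norm_num)

theorem st3 {d n w r ρ E : ℕ} (hG : 6 * (128 * w) ^ (d + 2) ≤ 2 ^ n)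
    (h : n + n * r + E ≤ 2 * ρ) :
    2 / qw w ^ (d + 2) * (((2 : ℝ) ^ n) ^ r * (1 / 4 ^ ρ)) ≤ 1 / 3 * (1 / 2 ^ E) := by
  have h3 := gb hG
  have h4 : (4 : ℝ) ^ ρ = 2 ^ (2 * ρ) := by rw [pow_mul]; norm_num
  calc _ ≤ (2 : ℝ) ^ n / 3 * (((2 : ℝ) ^ n) ^ r * (1 / 4 ^ ρ)) := by gcongr
    _ = 1 / 3 * (2 ^ (n + n * r) / 2 ^ (2 * ρ)) := by
        rw [h4, ← pow_mul, pow_add]
        ring
    _ ≤ _ := mul_le_mul_of_nonneg_left (p2 h) (by norm_num)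

/-- the sensitivities -/
def kq (Z d : ℕ) : ℕ → ℕ
  | 0 => (128 * Z) ^ (d + 4)
  | j + 1 => (128 * (Z * kq Z d j)) ^ (d + 4)

theorem kq_pos {Z : ℕ} (d : ℕ) (hZ : 1 ≤ Z) : ∀ j, 1 ≤ kq Z d j
  | 0 => Nat.one_le_pow _ _ (by omega)
  | j + 1 => by
      have h := kq_pos d hZ j
      have h1 : 0 < Z * kq Z d j := Nat.mul_pos (by omega) (by omega)
      exact Nat.one_le_pow _ _ (by omega)

theorem kS {w κ r : ℕ} (d : ℕ) (hw : 1 ≤ w) (hκ : κ ≤ w) (hr : r ≤ w) :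
    (2 * (w + (2 * w + 1) * (4 * κ + r)) : ℝ) ≤
      (((128 * w) ^ (d + 4) : ℕ) : ℝ) * qw w ^ (d + 2) := by
  have h1 : (1 : ℝ) ≤ w := by exact_mod_cast hw
  have h2 : (κ : ℝ) ≤ w := by exact_mod_cast hκ
  have h3 : (r : ℝ) ≤ w := by exact_mod_cast hr
  have h4 : (((128 * w) ^ (d + 4) : ℕ) : ℝ) * qw w ^ (d + 2) = (128 * (w : ℝ)) ^ 2 := by
    unfold qw
    rw [one_div, inv_pow]
    push_cast
    have : (128 * (w : ℝ)) ^ (d + 2) ≠ 0 := by positivity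
    rw [show d + 4 = 2 + (d + 2) by ring, pow_add, mul_assoc, mul_inv_cancel₀ this, mul_one]
  rw [h4]
  have h5 : (2 * (w : ℝ) + 1) * (4 * κ + r) ≤ (3 * w) * (5 * w) := by
    apply mul_le_mul <;> [linarith; linarith; positivity; positivity]
  nlinarith

theorem kq_le {Z d x : ℕ} (h : 128 * Z ≤ 2 ^ x) :
    ∀ j, kq Z d j ≤ 2 ^ ((2 * d + 8) ^ (j + 1) * x)
  | 0 => by
      calc (128 * Z) ^ (d + 4) ≤ (2 ^ x) ^ (d + 4) := Nat.pow_le_pow_left h _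
        _ = 2 ^ (x * (d + 4)) := by rw [pow_mul]
        _ ≤ _ := Nat.pow_le_pow_right (by norm_num) (by
          rw [zero_add, pow_one, mul_comm]
          exact Nat.mul_le_mul_right _ (by omega))
  | j + 1 => by
      have ih := kq_le (d := d) h j
      set E := (2 * d + 8) ^ (j + 1) with hE
      have hE1 : 1 ≤ E := Nat.one_le_pow _ _ (by omega)
      have h1 : 128 * (Z * kq Z d j) ≤ 2 ^ (x + E * x) := by
        rw [pow_add, ← mul_assoc]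
        exact Nat.mul_le_mul h ih
      calc (128 * (Z * kq Z d j)) ^ (d + 4) ≤ (2 ^ (x + E * x)) ^ (d + 4) :=
            Nat.pow_le_pow_left h1 _
        _ = 2 ^ ((x + E * x) * (d + 4)) := by rw [pow_mul]
        _ ≤ _ := Nat.pow_le_pow_right (by norm_num) (by
          rw [pow_succ, ← hE]
          have h2 : x ≤ E * x := Nat.le_mul_of_pos_left _ (by omega)
          calc (x + E * x) * (d + 4) ≤ (E * x + E * x) * (d + 4) :=
                Nat.mul_le_mul_right _ (by omega)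
            _ = _ := by ring)

theorem pf_PM1 : T_PM1 := by
  intro d n t R a x hn ht hR hx hE
  obtain ⟨ρ, hρ⟩ : ∃ ρ : ℕ → ℕ, ∀ j, ρ j = (n + 2) ^ (a - j) * (R + n + 2) := ⟨_, fun _ => rfl⟩
  set Z := 2 * (d + 3) * (t + n + ρ 0 + 10) with hZ
  have hZx : 128 * Z ≤ 2 ^ x := by
    refine le_trans (le_of_eq ?_) hx
    simp only [hZ, hρ, Nat.sub_zero]
    ring
  have hZ1 : 1 ≤ Z := by
    rw [hZ]
    exact Nat.mul_pos (by omega) (by omega)
  have hρR : ∀ j, R + n + 2 ≤ ρ j := by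
    intro j
    simp only [hρ]
    exact Nat.le_mul_of_pos_left _ (Nat.pow_pos (by omega))
  have hρ0 : ∀ j, ρ j ≤ ρ 0 := by
    intro j
    simp only [hρ]
    exact Nat.mul_le_mul_right _ (Nat.pow_le_pow_right (by omega) (by omega))
  have hρs : ∀ j < a, ρ j = (n + 2) * ρ (j + 1) := by
    intro j hj
    simp only [hρ]
    rw [← mul_assoc, ← pow_succ', show a - (j + 1) + 1 = a - j by omega]
  have hkp := kq_pos d hZ1
  have hkl := kq_le (d := d) hZx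
  have hZe : Z = 2 * (d + 3) * t + 2 * (d + 3) * (n + ρ 0 + 10) := by rw [hZ]; ring
  have hZl : 6 * n + 6 * ρ 0 + 60 + 20 * d ≤ 2 * (d + 3) * (n + ρ 0 + 10) := by nlinarith
  -- the bound for `w`
  have hG : ∀ j ≤ a, 6 * (128 * (Z * kq Z d j)) ^ (d + 2) ≤ 2 ^ n := by
    intro j hj
    set E := (2 * d + 8) ^ (j + 1) with hEj
    have hE1 : 1 ≤ E := Nat.one_le_pow _ _ (by omega)
    have h1 : 128 * (Z * kq Z d j) ≤ 2 ^ (x + E * x) := by
      rw [pow_add, ← mul_assoc]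
      exact Nat.mul_le_mul hZx (hkl j)
    have h2 : (128 * (Z * kq Z d j)) ^ (d + 2) ≤ 2 ^ ((2 * d + 8) ^ (a + 2) * x) := by
      calc _ ≤ (2 ^ (x + E * x)) ^ (d + 2) := Nat.pow_le_pow_left h1 _
        _ = 2 ^ ((x + E * x) * (d + 2)) := by rw [pow_mul]
        _ ≤ _ := Nat.pow_le_pow_right (by norm_num) (by
          have h2 : x ≤ E * x := Nat.le_mul_of_pos_left _ (by omega)
          have h3 : E * (2 * d + 8) ≤ (2 * d + 8) ^ (a + 2) := by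
            rw [hEj, ← pow_succ]
            exact Nat.pow_le_pow_right (by omega) (by omega)
          calc (x + E * x) * (d + 2) ≤ (E * x + E * x) * (d + 4) :=
                Nat.mul_le_mul (by omega) (by omega)
            _ = E * (2 * d + 8) * x := by ring
            _ ≤ _ := Nat.mul_le_mul_right _ h3)
    calc _ ≤ 2 ^ 3 * 2 ^ ((2 * d + 8) ^ (a + 2) * x) := Nat.mul_le_mul (by norm_num) h2
      _ = 2 ^ ((2 * d + 8) ^ (a + 2) * x + 3) := by rw [pow_add]; ring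
      _ ≤ _ := Nat.pow_le_pow_right (by norm_num) hE
  have hG0 : 6 * (128 * Z) ^ (d + 2) ≤ 2 ^ n := by
    refine le_trans ?_ (hG 0 (by omega))
    gcongr
    exact Nat.le_mul_of_pos_right _ (hkp 0)
  have h4R : ∀ j, (1 : ℝ) / 4 ^ ρ j = 1 / 2 ^ (2 * ρ j) := by
    intro j
    rw [pow_mul]
    norm_num
  refine ⟨Z, ρ 0 + R + n, 1, fun j => Z * kq Z d j, fun j => ρ (j + 1) + n, kq Z d,
    fun j => 1 / 4 ^ ρ j, hZ1, le_rfl, ?_, ?_, ?_, ?_, ?_⟩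
  · have h := kS (w := Z) (κ := 1) (r := ρ 0 + R + n) d hZ1 hZ1 (by
      have := hρR 0
      nlinarith)
    rw [show kq Z d 0 = (128 * Z) ^ (d + 4) from rfl]
    push_cast at h ⊢
    exact h
  · have e1 := st1 (t := t) (κ := 1) (E := R + 2 * ρ 0) hG0 le_rfl (by
      have := hρR 0
      nlinarith)
    have e2 := st2 (r := ρ 0 + R + n) (E := R + 2 * ρ 0) hG0 (by omega)
    rw [mul_one] at e1
    simp only [h4R]
    have e3 : (2 : ℝ) ^ R * (1 / 2 ^ (R + 2 * ρ 0)) = 1 / 2 ^ (2 * ρ 0) := by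
      rw [pow_add]
      field_simp
    have e4 : (0 : ℝ) < 2 ^ R := by positivity
    have e5 : (0 : ℝ) ≤ 1 / 2 ^ (2 * ρ 0) := by positivity
    calc _ = 2 ^ R * (2 / qw Z ^ (d + 2) * (((2 : ℝ) ^ n + 1) * (2 ^ t + 2 ^ t + 1) ^ (d + 2) *
            2 / 2 ^ Z) + 2 / qw Z ^ (d + 2) * (1 / 4 ^ (ρ 0 + R + n))) := by ring
      _ ≤ 2 ^ R * (1 / 3 * (1 / 2 ^ (R + 2 * ρ 0)) + 1 / 3 * (1 / 2 ^ (R + 2 * ρ 0))) :=
          mul_le_mul_of_nonneg_left (add_le_add e1 e2) e4.le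
      _ = 2 / 3 * (2 ^ R * (1 / 2 ^ (R + 2 * ρ 0))) := by ring
      _ ≤ _ := by rw [e3]; linarith
  · refine ⟨ht, hkp, fun j => Nat.mul_pos (by omega) (hkp j), fun j => by positivity, ?_, ?_⟩
    · intro j hj
      have hkZ : kq Z d j ≤ Z * kq Z d j := Nat.le_mul_of_pos_left _ (by omega)
      have hZk : Z ≤ Z * kq Z d j := Nat.le_mul_of_pos_right _ (hkp j)
      have hrZ : ρ (j + 1) + n ≤ Z := by
        have := hρ0 (j + 1)
        nlinarith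
      have h := kS (w := Z * kq Z d j) (κ := kq Z d j) (r := ρ (j + 1) + n) d
        (le_trans hZ1 hZk) hkZ (le_trans hrZ hZk)
      exact h
    · intro j hj
      have hr0 := hρ0 (j + 1)
      have hr1 := hρR (j + 1)
      have hrs := hρs j hj
      have hk1 := hkp j
      have hw : 2 * n + 2 + (t * kq Z d j + 2) * (d + 2) + 2 * ρ (j + 1) ≤ Z * kq Z d j := by
        have h1 : 2 * (d + 3) * (n + ρ 0 + 10) ≤ 2 * (d + 3) * (n + ρ 0 + 10) * kq Z d j :=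
          Nat.le_mul_of_pos_right _ hk1
        have h2 : Z * kq Z d j = 2 * (d + 3) * (t * kq Z d j) +
            2 * (d + 3) * (n + ρ 0 + 10) * kq Z d j := by
          rw [hZe]
          ring
        rw [h2]
        nlinarith [Nat.zero_le (t * kq Z d j), Nat.zero_le (t * kq Z d j * d)]
      have e1 := st1 (t := t) (κ := kq Z d j) (E := 2 * ρ (j + 1)) (hG j hj.le) hk1 hw
      have e2 := st2 (r := ρ (j + 1) + n) (E := 2 * ρ (j + 1)) (hG j hj.le) (by omega)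
      have e3 := st3 (r := ρ (j + 1) + n) (ρ := ρ j) (E := 2 * ρ (j + 1)) (hG j hj.le) (by
        rw [hrs]
        nlinarith)
      simp only [h4R (j + 1)]
      push_cast
      calc _ = 2 / qw (Z * kq Z d j) ^ (d + 2) * (((2 : ℝ) ^ n + 1) *
            (2 ^ t + 2 ^ (t * kq Z d j) + 1) ^ (d + 2) * 2 / 2 ^ (Z * kq Z d j)) +
            2 / qw (Z * kq Z d j) ^ (d + 2) * (1 / 4 ^ (ρ (j + 1) + n)) +
            2 / qw (Z * kq Z d j) ^ (d + 2) * (((2 : ℝ) ^ n) ^ (ρ (j + 1) + n) *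
              (1 / 4 ^ ρ j)) := by ring
        _ ≤ 1 / 3 * (1 / 2 ^ (2 * ρ (j + 1))) + 1 / 3 * (1 / 2 ^ (2 * ρ (j + 1))) +
            1 / 3 * (1 / 2 ^ (2 * ρ (j + 1))) := add_le_add (add_le_add e1 e2) e3
        _ = _ := by ring
  · intro j
    apply one_div_le_one_div_of_le (by positivity)
    exact pow_le_pow_right₀ (by norm_num) (by
      have := hρR j
      omega)
  · intro j hj
    refine le_trans (hkl j) (Nat.pow_le_pow_right (by norm_num) (Nat.mul_le_mul_right _ ?_))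
    exact Nat.pow_le_pow_right (by omega) (by omega)

end Pool.Agent.H10.GG
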