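import Pool.Agent.H75.GG.Targets
import Pool.Agent.H35.NB.PAR

/-!
MP_0f8dca_lc, module PM2: the parameters of the stages.
-/

set_option autoImplicit false

namespace Pool.Agent.H10.GG.P2

open Finset Filter Pool.Agent.H6.NB Pool.Agent.H70.OQ Pool.Agent.H75.GS Pool.Agent.H75.GG
open Pool.Agent.H35.NB.P

/-- The parameters of one stage, with explicit hypotheses. -/
theorem core (h : T_PM1) {K n a ℓ x E : ℕ} (hn : 1 ≤ n) (ha : 1 ≤ a) (hℓ : n ≤ 2 ^ ℓ)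
    (hx : x = (2 * ℓ + K + 17) * 2 ^ a) (hE : E = (2 * K + 8) ^ (a + 2) * x)
    (hEn : 100 * E ^ 2 ≤ n) : ∃ M ≤ 2 ^ (n / 16), PrS K n a M := by
  have ha2 : a ≤ 2 ^ a := Nat.lt_two_pow_self.le
  have h2a : 2 ≤ 2 ^ a := by
    calc 2 = 2 ^ 1 := by norm_num
      _ ≤ _ := Nat.pow_le_pow_right (by norm_num) ha
  have hx17 : 17 ≤ x := by
    rw [hx]
    nlinarith
  have hKE : 1 ≤ (2 * K + 8) ^ (a + 2) := Nat.one_le_pow _ _ (by omega)
  have hxE : x ≤ E := by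
    rw [hE]
    exact Nat.le_mul_of_pos_left _ hKE
  have hE1 : 17 ≤ E := by omega
  have hEE : E ≤ E ^ 2 := Nat.le_self_pow (by norm_num) _
  set N := n ^ 2 ^ a with hN
  have hnN : n ^ 2 ≤ N := Nat.pow_le_pow_right (by omega) h2a
  have hn2 : n ≤ n ^ 2 := Nat.le_self_pow (by norm_num) _
  have hN1 : 1 ≤ N := Nat.one_le_pow _ _ (by omega)
  have hℓx : ℓ * 2 ^ a ≤ x := by
    rw [hx]
    exact Nat.mul_le_mul_right _ (by omega)
  have hNl : N ≤ 2 ^ (ℓ * 2 ^ a) := by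
    rw [hN, pow_mul]
    exact Nat.pow_le_pow_left hℓ _
  have hNE : N ≤ 2 ^ E := le_trans hNl (Nat.pow_le_pow_right (by norm_num) (by omega))
  -- the condition on `x`
  have hcx : 256 * (K + 3) * (N + n + (n + 2) ^ a * ((N + n ^ 2 + 2 * n + 2) + n + 2) + 10) ≤
      2 ^ x := by
    have h1 : K + 3 ≤ 2 ^ (K + 3) := Nat.lt_two_pow_self.le
    have hn3 : (n + 2) ≤ 2 ^ (ℓ + 2) := by
      have : 1 ≤ 2 ^ ℓ := Nat.one_le_two_pow
      rw [pow_add]
      omega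
    have h2 : (n + 2) ^ a ≤ 2 ^ ((ℓ + 2) * a) := by
      rw [pow_mul]
      exact Nat.pow_le_pow_left hn3 _
    have h3 : 1 ≤ (n + 2) ^ a := Nat.one_le_pow _ _ (by omega)
    have h4 : N + n + (n + 2) ^ a * ((N + n ^ 2 + 2 * n + 2) + n + 2) + 10 ≤
        2 ^ 5 * ((n + 2) ^ a * N) := by
      have h5 : (N + n ^ 2 + 2 * n + 2) + n + 2 ≤ 9 * N := by omega
      have h6 : (n + 2) ^ a * ((N + n ^ 2 + 2 * n + 2) + n + 2) ≤ (n + 2) ^ a * (9 * N) :=
        Nat.mul_le_mul_left _ h5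
      have h7 : N ≤ (n + 2) ^ a * N := Nat.le_mul_of_pos_left _ h3
      have h8 : (n + 2) ^ a * (9 * N) = 9 * ((n + 2) ^ a * N) := by ring
      omega
    calc _ ≤ 2 ^ 8 * 2 ^ (K + 3) * (2 ^ 5 * (2 ^ ((ℓ + 2) * a) * 2 ^ (ℓ * 2 ^ a))) := by
          refine Nat.mul_le_mul (Nat.mul_le_mul (by norm_num) h1) (le_trans h4 ?_)
          exact Nat.mul_le_mul_left _ (Nat.mul_le_mul h2 hNl)
      _ = 2 ^ (8 + (K + 3) + (5 + ((ℓ + 2) * a + ℓ * 2 ^ a))) := by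
          simp only [pow_add]
      _ ≤ 2 ^ x := by
          apply Nat.pow_le_pow_right (by norm_num)
          rw [hx]
          have h5 : (ℓ + 2) * a ≤ (ℓ + 2) * 2 ^ a := Nat.mul_le_mul_left _ ha2
          nlinarith
  obtain ⟨w0, r0, k0, w, r, k, δ, hw0, hk0, hbS, hbd, hPrm, hδ, hk⟩ :=
    h K n N (N + n ^ 2 + 2 * n + 2) a x hn hN1 (by omega) hcx (by
      rw [← hE]
      omega)
  set M := 2 ^ E with hM
  have hM1 : 1 ≤ M := Nat.one_le_two_pow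
  set D := N + n * (M + 1) + N + 2 with hD
  set m := (K + 5) * a + 3 with hm
  set w' := 202 + 20 * N + (D + 1) * m with hw'
  have hMn : M ≤ 2 ^ (n / 16) := Nat.pow_le_pow_right (by norm_num) (by omega)
  have hnE : n ≤ 2 ^ E := by omega
  have hmE : m ≤ E := by
    have h1 : (2 * K + 8) * 2 ^ (a + 1) ≤ (2 * K + 8) ^ (a + 2) := by
      rw [pow_succ' (2 * K + 8) (a + 1)]
      exact Nat.mul_le_mul_left _ (Nat.pow_le_pow_left (by omega) _)
    have h2 : a + 1 ≤ 2 ^ (a + 1) := Nat.lt_two_pow_self.le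
    have h3 : (2 * K + 8) * (a + 1) ≤ (2 * K + 8) * 2 ^ (a + 1) := Nat.mul_le_mul_left _ h2
    have h4 : (2 * K + 8) ^ (a + 2) ≤ E := by
      rw [hE]
      exact Nat.le_mul_of_pos_right _ (by omega)
    have h5 : m ≤ (2 * K + 8) * (a + 1) := by
      rw [hm]
      nlinarith
    omega
  have hMM : M * M = 2 ^ (2 * E) := by rw [hM, ← pow_add]; congr 1; omega
  have hMM1 : M ≤ M * M := Nat.le_mul_of_pos_left _ hM1
  have hD1 : D + 1 ≤ 2 ^ (2 * E + 3) := by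
    have h1 : n * (M + 1) ≤ M * (M + 1) := Nat.mul_le_mul_right _ hnE
    have h2 : M * (M + 1) = M * M + M := by ring
    rw [pow_add, ← hMM, hD]
    omega
  have hw'l : 128 * w' ≤ 2 ^ (20 * E) := by
    have h1 : (D + 1) * m ≤ 2 ^ (2 * E + 3) * 2 ^ E :=
      Nat.mul_le_mul hD1 (le_trans hmE Nat.lt_two_pow_self.le)
    have h2 : 2 ^ (2 * E + 3) * 2 ^ E = 8 * 2 ^ (3 * E) := by
      rw [← pow_add, show 2 * E + 3 + E = 3 + 3 * E by ring, pow_add]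
      norm_num
    have h3 : 2 ^ E ≤ 2 ^ (3 * E) := Nat.pow_le_pow_right (by norm_num) (by omega)
    have h4 : 1 ≤ 2 ^ (3 * E) := Nat.one_le_two_pow
    have h5 : w' ≤ 2 ^ 8 * 2 ^ (3 * E) := by
      rw [hw']
      omega
    calc 128 * w' ≤ 2 ^ 7 * (2 ^ 8 * 2 ^ (3 * E)) := Nat.mul_le_mul (by norm_num) h5
      _ = 2 ^ (7 + (8 + 3 * E)) := by simp only [pow_add]
      _ ≤ _ := Nat.pow_le_pow_right (by norm_num) (by omega)
  have hlast : (128 * (w' : ℝ)) ^ (2 * m + 3) ≤ 2 ^ n := by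
    have h1 : (128 * w') ^ (2 * m + 3) ≤ 2 ^ n := by
      calc _ ≤ (2 ^ (20 * E)) ^ (2 * m + 3) := Nat.pow_le_pow_left hw'l _
        _ = 2 ^ (20 * E * (2 * m + 3)) := by rw [← pow_mul]
        _ ≤ 2 ^ n := by
          apply Nat.pow_le_pow_right (by norm_num)
          have h2 : 2 * m + 3 ≤ 5 * E := by omega
          calc 20 * E * (2 * m + 3) ≤ 20 * E * (5 * E) := Nat.mul_le_mul_left _ h2
            _ = 100 * E ^ 2 := by ring
            _ ≤ n := hEn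
    exact_mod_cast h1
  have hpos : (0 : ℝ) ≤ 2 / qw w0 ^ (K + 2) * (((2 : ℝ) ^ n + 1) *
      (2 ^ N + 2 ^ N + 1) ^ (K + 2) * 2 / 2 ^ w0 + 1 / 4 ^ r0) := by
    unfold qw
    positivity
  refine ⟨M, hMn, N, 2 ^ D, w', w0, r0, k0, w, r, k, δ, 1 / 4 ^ (N + n ^ 2 + 2 * n + 2), hN1, ?_,
    hw0, hk0, hbS, ?_, hPrm, fun j _ => hδ j, ?_, ?_, ?_, ?_, hM1, ?_, ?_, ?_, ?_⟩
  · rw [← hN, pow_two]
    exact Nat.le_mul_of_pos_right _ hN1
  · refine le_trans ?_ hbd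
    apply mul_le_mul_of_nonneg_right _ hpos
    exact pow_le_pow_right₀ (by norm_num) (by omega)
  · have h1 : (4 : ℝ) ^ (N + n ^ 2 + 2 * n + 2) = 2 ^ (2 * (N + n ^ 2 + 2 * n + 2)) := by
      rw [pow_mul]
      norm_num
    rw [h1, mul_one_div, div_le_div_iff₀ (by positivity) (by positivity), one_mul]
    calc (4 : ℝ) * 2 ^ n ^ 2 ^ a * 2 ^ (2 * n) = 2 ^ (2 + N + 2 * n) := by
          rw [pow_add, pow_add, ← hN]
          norm_num
      _ ≤ _ := pow_le_pow_right₀ (by norm_num) (by omega)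
  · calc 2 = 2 ^ 1 := by norm_num
      _ ≤ _ := Nat.pow_le_pow_right (by norm_num) (by omega)
  · exact Nat.pow_le_pow_right (by norm_num) (by omega)
  · intro j hj
    refine le_trans (hk j hj.le) (Nat.pow_le_pow_right (by norm_num) ?_)
    rw [hE]
    exact Nat.mul_le_mul_right _ (Nat.pow_le_pow_right (by omega) (by omega))
  · have h1 : M + 1 ≤ n * (M + 1) := Nat.le_mul_of_pos_left _ hn
    have h2 : D < 2 ^ D := Nat.lt_two_pow_self
    omega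
  · calc 2 * 2 ^ n ^ 2 ^ a * (2 ^ n) ^ (M + 1) = 2 ^ 1 * 2 ^ N * 2 ^ (n * (M + 1)) := by
          rw [← pow_mul, pow_one]
      _ = 2 ^ (1 + N + n * (M + 1)) := by rw [pow_add 2 (1 + N), pow_add 2 1]
      _ ≤ _ := Nat.pow_le_pow_right (by norm_num) (by omega)
  · omega
  · intro q hq
    rw [← hN] at hq
    refine bracket n w' D m q (by omega) ?_ hlast
    omega

theorem growth {K a n ℓ : ℕ} (ha : 1 ≤ a) (hA : (2 ^ a) ^ (12 * (2 * K + 8) + 4) ≤ n)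
    (hℓ : (100 * (2 * ℓ + K + 17) ^ 2) ^ 2 ≤ n) :
    100 * ((2 * K + 8) ^ (a + 2) * ((2 * ℓ + K + 17) * 2 ^ a)) ^ 2 ≤ n := by
  set b := 2 * K + 8 with hb
  set A := 2 ^ a with hAe
  have h1 : b ^ (a + 2) ≤ A ^ (3 * b) := by
    have h2 : b ^ (a + 2) ≤ (2 ^ b) ^ (a + 2) := Nat.pow_le_pow_left Nat.lt_two_pow_self.le _
    refine le_trans h2 ?_
    rw [hAe, ← pow_mul, ← pow_mul]
    apply Nat.pow_le_pow_right (by norm_num)
    have : b * (a + 2) ≤ b * (3 * a) := Nat.mul_le_mul_left _ (by omega)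
    calc b * (a + 2) ≤ b * (3 * a) := this
      _ = _ := by ring
  set y := 2 * ℓ + K + 17 with hy
  have h2 : b ^ (a + 2) * (y * A) ≤ A ^ (3 * b + 1) * y := by
    calc b ^ (a + 2) * (y * A) ≤ A ^ (3 * b) * (y * A) := Nat.mul_le_mul_right _ h1
      _ = _ := by ring
  have h3 : 100 * (b ^ (a + 2) * (y * A)) ^ 2 ≤ A ^ (6 * b + 2) * (100 * y ^ 2) := by
    calc _ ≤ 100 * (A ^ (3 * b + 1) * y) ^ 2 :=
          Nat.mul_le_mul_left _ (Nat.pow_le_pow_left h2 _)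
      _ = _ := by
        rw [mul_pow, ← pow_mul, show (3 * b + 1) * 2 = 6 * b + 2 by ring]
        ring
  have h4 : (A ^ (6 * b + 2) * (100 * y ^ 2)) ^ 2 ≤ n ^ 2 := by
    rw [mul_pow, pow_two n]
    refine Nat.mul_le_mul ?_ hℓ
    rw [← pow_mul, show (6 * b + 2) * 2 = 12 * b + 4 by ring]
    exact hA
  exact le_trans h3 ((Nat.pow_le_pow_iff_left (by norm_num)).1 h4)

end Pool.Agent.H10.GG.P2

namespace Pool.Agent.H10.GG

open Finset Filter Pool.Agent.H6.NB Pool.Agent.H70.OQ Pool.Agent.H75.GS Pool.Agent.H75.GG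
open Pool.Agent.H35.NB.P

theorem pf_PM2 (h : T_PM1) : T_PM2 := by
  intro K
  refine ⟨12 * (2 * K + 8) + 4, ?_⟩
  have e1 := ev1 4 2 (1 / (10 ^ 4 * ((K : ℝ) + 21) ^ 4)) (by norm_num) (by positivity)
  obtain ⟨u0, hu0⟩ := eventually_atTop.1 e1
  filter_upwards [eventually_ge_atTop (2 ^ (u0 + 1))] with n hn a ha hA
  have hn1 : 1 ≤ n := le_trans Nat.one_le_two_pow hn
  set u := Nat.log 2 n with hu
  have hu1 : u0 + 1 ≤ u := (Nat.le_log_iff_pow_le (by norm_num) (by omega)).2 hn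
  have h1 : 2 ^ u ≤ n := Nat.pow_log_le_self 2 (by omega)
  have h2 : n ≤ 2 ^ (u + 1) := (Nat.lt_pow_succ_log_self (by norm_num) n).le
  have h3 := hu0 u (by omega)
  have h4 : (100 * (2 * (u + 1) + K + 17) ^ 2) ^ 2 ≤ n := by
    refine le_trans ?_ h1
    have h5 : 2 * (u + 1) + K + 17 ≤ (K + 21) * u := by nlinarith
    have h6 : (100 * (2 * (u + 1) + K + 17) ^ 2) ^ 2 ≤ (100 * ((K + 21) * u) ^ 2) ^ 2 := by
      gcongr
    refine le_trans h6 ?_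
    rw [div_lt_div_iff₀ (by positivity) (by positivity), one_mul] at h3
    have h7 : ((100 * ((K + 21) * u) ^ 2) ^ 2 : ℕ) = u ^ 4 * (10 ^ 4 * (K + 21) ^ 4) := by ring
    rw [h7]
    exact_mod_cast h3.le
  exact P2.core h hn1 ha h2 rfl rfl (P2.growth ha hA h4)

end Pool.Agent.H10.GG
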